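import Mathlib
import Pool.Agent.Y659.MPS.Top
import Pool.Agent.Y702.MPS.EQ
import Pool.Agent.Y43.MPS.U1G
import Pool.Agent.Y563.MPS.U1R
import Pool.Agent.Y43.MPS.U1F
import Pool.Agent.Y43.MPS.U1A
import Pool.Agent.Y661.MPS.U1
import Pool.Agent.Y297.MPS.Basis
import Pool.Agent.Y79.MPS.S3A
import Pool.Agent.Y461.MPS.S3B
import Pool.Agent.Y79.MPS.S3C
import Pool.Agent.Y659.MPS.Start
import Pool.Agent.Y331.MPS.StepLev
import Pool.Agent.Y461.MPS.S5
import Pool.Agent.Y495.MPS.KLA
import Pool.Agent.Y641.MPS.KLG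
import Pool.Agent.Y388.MPS.Core1
import Pool.Agent.Y388.MPS.Core2
import Pool.Agent.Y781.MPS.KLE
import Pool.Agent.Y71.MPS.Fin2
import Pool.Agent.Y661.MPS.T

/-!
# The largest injectivity index of a normal matrix product state, for every bond dimension
-/

namespace Pool.Agent.Results.MP_4e951d_mp.ExactIndex

open Pool.Agent.Results.MP_4e951d_mp.IndexWithinOne

/-- the upper bound -/
lemma upper {D d : ℕ} (hD : 1 ≤ D) {A : Fin d → Matrix (Fin D) (Fin D) ℂ} (hA : Normal A) :
    injIndex A ≤ D ^ 2 - D + 1 := by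
  rcases Nat.lt_or_ge 4 D with h | h
  · have hKL := Y659.MPS.KL Y495.MPS.KLA Y641.MPS.KLG (Y781.MPS.KLE Y641.MPS.KLG)
      Y388.MPS.Core1 Y388.MPS.Core2 Y71.MPS.Fin2
    exact Y659.MPS.upper Y702.MPS.EQ
      (Y661.MPS.U1 Y43.MPS.U1A Y43.MPS.U1G Y563.MPS.U1R Y43.MPS.U1F) Y297.MPS.Basis
      Y79.MPS.S3A Y461.MPS.S3B Y79.MPS.S3C Y331.MPS.StepLev hKL Y659.MPS.Start Y461.MPS.S5
      Y661.MPS.T (by omega) hA
  · have hmem : injIndex A ∈ indices D := by
      rcases Nat.eq_zero_or_pos d with h0 | h0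
      · -- no matrices at all: pad with a zero matrix
        subst h0
        obtain ⟨L, hL1, hL⟩ := hA
        exfalso
        rw [prodSpan_eq] at hL
        have h2 : Submodule.span ℂ (Set.range A) = ⊥ := by
          rw [Submodule.span_eq_bot]
          rintro x ⟨i, rfl⟩
          exact i.elim0
        rw [h2, ← Submodule.zero_eq_bot, zero_pow (by omega), Submodule.zero_eq_bot] at hL
        have h3 : (1 : Matrix (Fin D) (Fin D) ℂ) ∈ (⊤ : Submodule ℂ _) := trivial
        rw [← hL, Submodule.mem_bot] at h3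
        have h4 := congrFun (congrFun h3 ⟨0, by omega⟩) ⟨0, by omega⟩
        rw [Matrix.one_apply_eq, Matrix.zero_apply] at h4
        exact one_ne_zero h4
      · exact ⟨d, A, h0, hA, rfl⟩
    interval_cases D
    · simpa using IndexWithinOne.result.2.1.2 hmem
    · simpa using IndexWithinOne.result.2.2.1.2 hmem
    · simpa using ThreeAndFour.result.1.1.2 hmem
    · simpa using ThreeAndFour.result.1.2.2 hmem

/-- **The injectivity index of normal matrix product states.** For every bond dimension `D ≥ 1`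
the largest injectivity index `N(D)` of a normal tuple of `D × D` matrices (over all numbers
`d ≥ 1` of matrices) is `D² - D + 1`: this value is attained, and no normal tuple has a larger
injectivity index. -/
theorem result (D : ℕ) (hD : 1 ≤ D) : IsGreatest (indices D) (D ^ 2 - D + 1) := by
  obtain ⟨A, hA, hA2⟩ := lower D hD
  refine ⟨⟨2, A, by norm_num, hA, le_antisymm (upper hD hA) hA2⟩, ?_⟩
  rintro L ⟨d, A, -, hA, rfl⟩
  exact upper hD hA

end Pool.Agent.Results.MP_4e951d_mp.ExactIndex
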